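import Pool.Agent.BC.Stmts

/-! BC, module LIM: the limit tree and the norm equivalence. -/

set_option autoImplicit false
set_option linter.unusedSectionVars false

namespace Pool.Agent.BC.H78

open Finset MeasureTheory Filter Topology Pool.Agent.BC

variable {X : Type} [NormedAddCommGroup X] [NormedSpace ℝ X]

theorem L_congr (v : ℕ → ℕ → X) {t : ℕ} {a b : ℕ → ℝ} (h : ∀ i, i < t → a i = b i) :
    L v t a = L v t b := by
  unfold L
  exact Finset.sum_congr rfl fun i hi => by rw [h i (Finset.mem_range.1 hi)]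

theorem L_comb (v : ℕ → ℕ → X) (t s : ℕ) (a : ℕ → ℝ) (w : ℕ → ℕ → ℝ) :
    L v t (fun m => ∑ i ∈ range s, a i * w i m) = ∑ i ∈ range s, a i • L v t (w i) := by
  unfold L
  simp_rw [Finset.smul_sum, Finset.sum_smul]
  rw [Finset.sum_comm]
  apply Finset.sum_congr rfl
  intro i _
  apply Finset.sum_congr rfl
  intro m _
  rw [mul_smul]

theorem L_half (v : ℕ → ℕ → X) (t : ℕ) (a b : ℕ → ℝ) :
    L v t (fun m => (a m + b m) / 2) = (2 : ℝ)⁻¹ • (L v t a + L v t b) := by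
  unfold L
  rw [← Finset.sum_add_distrib, Finset.smul_sum]
  apply Finset.sum_congr rfl
  intro m _
  rw [← add_smul, smul_smul]
  congr 1
  ring

/-! ### Weights -/

theorem mod_split {k j : ℕ} (hj : j < 2 ^ k) (i : ℕ) :
    (i % 2 ^ k = j ∧ (i % 2 ^ (k + 1) = j ∧ i % 2 ^ (k + 1) ≠ j + 2 ^ k ∨
      i % 2 ^ (k + 1) ≠ j ∧ i % 2 ^ (k + 1) = j + 2 ^ k)) ∨
    (i % 2 ^ k ≠ j ∧ i % 2 ^ (k + 1) ≠ j ∧ i % 2 ^ (k + 1) ≠ j + 2 ^ k) := by
  have h1 : i % 2 ^ (k + 1) = i % 2 ^ k + 2 ^ k * (i / 2 ^ k % 2) := Nat.mod_pow_succ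
  have h2 : i % 2 ^ k < 2 ^ k := Nat.mod_lt _ (by positivity)
  rcases Nat.mod_two_eq_zero_or_one (i / 2 ^ k) with h | h
  · rw [h, mul_zero, add_zero] at h1
    omega
  · rw [h, mul_one] at h1
    omega

theorem wt_split {n k j : ℕ} (hk : k + 1 ≤ n) (hj : j < 2 ^ k) (i : ℕ) :
    wt n k j i = (wt n (k + 1) j i + wt n (k + 1) (j + 2 ^ k) i) / 2 := by
  unfold wt
  have h1 : ((1 : ℝ) / 2) ^ (n - k) = ((1 : ℝ) / 2) ^ (n - (k + 1)) / 2 := by
    rw [show n - k = n - (k + 1) + 1 by omega, pow_succ]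
    ring
  rcases mod_split hj i with ⟨a, ⟨b, c⟩ | ⟨b, c⟩⟩ | ⟨a, b, c⟩
  · rw [if_pos a, if_pos b, if_neg c, add_zero, h1]
  · rw [if_pos a, if_neg b, if_pos c, zero_add, h1]
  · rw [if_neg a, if_neg b, if_neg c, add_zero, zero_div]

theorem wt_nonneg (n k j i : ℕ) : 0 ≤ wt n k j i := by
  unfold wt
  split_ifs
  · positivity
  · exact le_rfl

theorem wt_sum {k j : ℕ} (hj : j < 2 ^ k) (n : ℕ) : ∑ i ∈ range (2 ^ (k + n)), wt (k + n) k j i = 1 := by
  induction n with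
  | zero =>
    rw [add_zero, Finset.sum_eq_single j]
    · unfold wt
      rw [if_pos (Nat.mod_eq_of_lt hj), Nat.sub_self, pow_zero]
    · intro i hi hne
      unfold wt
      rw [Nat.mod_eq_of_lt (Finset.mem_range.1 hi), if_neg hne]
    · intro h
      exact absurd (Finset.mem_range.2 hj) h
  | succ n ih =>
    rw [show (2 : ℕ) ^ (k + (n + 1)) = 2 ^ (k + n) + 2 ^ (k + n) by rw [← add_assoc, pow_succ]; ring,
      Finset.sum_range_add]
    have h1 : ∀ i, wt (k + (n + 1)) k j i = wt (k + n) k j i / 2 := by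
      intro i
      unfold wt
      rw [show k + (n + 1) - k = n + 1 by omega, show k + n - k = n by omega, pow_succ]
      split_ifs <;> ring
    have h2 : ∀ i, wt (k + n) k j (2 ^ (k + n) + i) = wt (k + n) k j i := by
      intro i
      unfold wt
      have : (2 ^ (k + n) + i) % 2 ^ k = i % 2 ^ k := by
        rw [pow_add, Nat.mul_add_mod]
      rw [this]
    simp_rw [h1, h2, ← Finset.sum_div, ih]
    norm_num

theorem L_wt_le {v : ℕ → ℕ → X} (hb : ∀ t i, i < t → ‖v t i‖ ≤ 1) {k j : ℕ} (hj : j < 2 ^ k)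
    (n : ℕ) : ‖L v (2 ^ (n + k)) (wt (n + k) k j)‖ ≤ 1 := by
  rw [add_comm n k]
  unfold L
  refine (norm_sum_le _ _).trans ?_
  rw [← wt_sum hj n]
  apply Finset.sum_le_sum
  intro i hi
  rw [norm_smul, Real.norm_of_nonneg (wt_nonneg _ _ _ _)]
  exact mul_le_of_le_one_right (wt_nonneg _ _ _ _) (hb _ _ (Finset.mem_range.1 hi))

/-! ### The limits -/

theorem lim_exists [CompleteSpace X] {v : ℕ → ℕ → X} {δ M ρ : ℝ} {ε : ℕ → ℝ} (hρ : ρ < 1)
    (hS : Sys v δ ε M ρ) {k j : ℕ} (hj : j < 2 ^ k) :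
    ∃ y : X, Tendsto (fun n => L v (2 ^ (n + k)) (wt (n + k) k j)) atTop (𝓝 y) := by
  have h1 : CauchySeq (fun n => L v (2 ^ (n + k)) (wt (n + k) k j)) := by
    refine cauchySeq_of_le_geometric ρ (M * 4 ^ k * ρ ^ k) hρ ?_
    intro n
    rw [dist_comm, dist_eq_norm]
    have h2 := hS.mov (n + k) k j (Nat.le_add_left k n) hj
    have h3 : n + 1 + k = n + k + 1 := by ring
    rw [h3]
    calc _ ≤ M * 4 ^ k * ρ ^ (n + k) := h2
      _ = _ := by rw [pow_add]; ring
  exact cauchySeq_tendsto_of_complete h1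

/-! ### The extension of the coefficients -/

theorem sc_lt {t : ℕ} (ht : 1 ≤ t) : sc t < 2 ^ Nat.log 2 t ∧ t = 2 ^ Nat.log 2 t + sc t := by
  have h1 : 2 ^ Nat.log 2 t ≤ t := Nat.pow_log_le_self 2 (by omega)
  have h2 : t < 2 ^ (Nat.log 2 t + 1) := Nat.lt_pow_succ_log_self (by norm_num) t
  rw [pow_succ] at h2
  unfold sc
  omega

/-- the step from `T` to `T + 1` -/
theorem log_step {T : ℕ} (hT : 1 ≤ T) :
    (Nat.log 2 (T + 1) = Nat.log 2 T ∧ sc (T + 1) = sc T + 1) ∨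
      (Nat.log 2 (T + 1) = Nat.log 2 T + 1 ∧ sc (T + 1) = 0 ∧ T + 1 = 2 ^ (Nat.log 2 T + 1)) := by
  obtain ⟨h1, h2⟩ := sc_lt hT
  have h3 : T < 2 ^ (Nat.log 2 T + 1) := Nat.lt_pow_succ_log_self (by norm_num) T
  rcases Nat.lt_or_ge (T + 1) (2 ^ (Nat.log 2 T + 1)) with h | h
  · left
    have h4 : Nat.log 2 (T + 1) = Nat.log 2 T := by
      rw [Nat.log_eq_iff (Or.inr ⟨by norm_num, by omega⟩)]
      exact ⟨by omega, h⟩
    refine ⟨h4, ?_⟩
    unfold sc
    rw [h4]
    have h5 : 2 ^ Nat.log 2 T ≤ T := Nat.pow_log_le_self 2 (by omega)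
    omega
  · right
    have h4 : T + 1 = 2 ^ (Nat.log 2 T + 1) := by omega
    have h5 : Nat.log 2 (T + 1) = Nat.log 2 T + 1 := by
      rw [h4]
      exact Nat.log_pow (by norm_num) _
    refine ⟨h5, ?_, h4⟩
    unfold sc
    rw [h5, ← h4, Nat.sub_self]

theorem lev_same {T m : ℕ} (hT : 1 ≤ T) (hm : m < T) (hne : m ≠ sc T) :
    lev (T + 1) m = lev T m := by
  obtain ⟨h1, h2⟩ := sc_lt hT
  unfold lev
  rcases log_step hT with ⟨a, b⟩ | ⟨a, b, c⟩
  · rw [a, b]
    by_cases h : m < sc T ∨ 2 ^ Nat.log 2 T ≤ m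
    · rw [if_pos h, if_pos (by omega)]
    · rw [if_neg h, if_neg (by omega)]
  · rw [a, b, ← c]
    rw [pow_succ] at c
    rw [if_neg (by omega), if_pos (by omega)]

theorem lev_sc {T : ℕ} (hT : 1 ≤ T) : lev T (sc T) = Nat.log 2 T ∧
    lev (T + 1) (sc T) = Nat.log 2 T + 1 ∧ lev (T + 1) T = Nat.log 2 T + 1 := by
  obtain ⟨h1, h2⟩ := sc_lt hT
  refine ⟨?_, ?_, ?_⟩
  · unfold lev
    rw [if_neg (by omega)]
  · unfold lev
    rcases log_step hT with ⟨a, b⟩ | ⟨a, b, c⟩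
    · rw [a, b, if_pos (by omega)]
    · rw [a, b, ← c, if_neg (by omega)]
  · unfold lev
    rcases log_step hT with ⟨a, b⟩ | ⟨a, b, c⟩
    · rw [a, b, if_pos (by omega)]
    · rw [a, b, ← c, if_neg (by omega)]

theorem lt_pow_lev {t i : ℕ} (hi : i < t) : i < 2 ^ lev t i := by
  have h3 : t < 2 ^ (Nat.log 2 t + 1) := Nat.lt_pow_succ_log_self (by norm_num) t
  unfold lev
  split_ifs with h
  · omega
  · omega

/-- the weight of the leaf `m` at the time `T` below the leaf `i` of the time `t` -/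
noncomputable def Wg (t i T m : ℕ) : ℝ :=
  if m % 2 ^ lev t i = i then ((1 : ℝ) / 2) ^ (lev T m - lev t i) else 0

theorem Wg_zero {t i m : ℕ} (ht : 1 ≤ t) (hi : i < t) (hm : m < t) :
    Wg t i t m = if m = i then 1 else 0 := by
  obtain ⟨h1, h2⟩ := sc_lt ht
  have h3 : t < 2 ^ (Nat.log 2 t + 1) := Nat.lt_pow_succ_log_self (by norm_num) t
  have key : m % 2 ^ lev t i = i ↔ m = i := by
    constructor
    · intro h
      unfold lev at h
      split_ifs at h with hc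
      · rwa [Nat.mod_eq_of_lt (by omega)] at h
      · rcases Nat.lt_or_ge m (2 ^ Nat.log 2 t) with h4 | h4
        · rwa [Nat.mod_eq_of_lt h4] at h
        · exfalso
          have h5 : m = 2 ^ Nat.log 2 t + (m - 2 ^ Nat.log 2 t) := by omega
          rw [h5, Nat.add_mod_left, Nat.mod_eq_of_lt (by omega)] at h
          omega
    · rintro rfl
      exact Nat.mod_eq_of_lt (lt_pow_lev hi)
  unfold Wg
  by_cases h : m = i
  · rw [if_pos (key.2 h), if_pos h, h, Nat.sub_self, pow_zero]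
  · rw [if_neg (fun h' => h (key.1 h')), if_neg h]

theorem Wg_same {t i T m : ℕ} (hT : 1 ≤ T) (hm : m < T) (hne : m ≠ sc T) :
    Wg t i (T + 1) m = Wg t i T m := by
  unfold Wg
  rw [lev_same hT hm hne]

theorem Wg_new {t i T : ℕ} (ht : 1 ≤ t) (hi : i < t) (hT : t ≤ T) :
    Wg t i (T + 1) (sc T) = Wg t i T (sc T) / 2 ∧ Wg t i (T + 1) T = Wg t i T (sc T) / 2 := by
  have hT1 : 1 ≤ T := by omega
  obtain ⟨e1, e2, e3⟩ := lev_sc hT1
  obtain ⟨h1, h2⟩ := sc_lt hT1
  obtain ⟨h1', h2'⟩ := sc_lt ht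
  have hlog : Nat.log 2 t ≤ Nat.log 2 T := Nat.log_mono_right hT
  have h3 : T < 2 ^ (Nat.log 2 T + 1) := Nat.lt_pow_succ_log_self (by norm_num) T
  rcases Nat.lt_or_ge (Nat.log 2 T) (lev t i) with h | h
  · -- nothing below `i` is split
    have h4 : Nat.log 2 t = Nat.log 2 T ∧ lev t i = Nat.log 2 T + 1 := by
      unfold lev at h ⊢
      split_ifs at h ⊢ with hc <;> omega
    have h5 : i < sc t ∨ 2 ^ Nat.log 2 t ≤ i := by
      by_contra hc
      have : lev t i = Nat.log 2 t := by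
        unfold lev
        rw [if_neg hc]
      omega
    have h6 : sc t ≤ sc T := by
      rw [h4.1] at h2'
      omega
    have h7 : ¬ sc T % 2 ^ lev t i = i := by
      rw [h4.2, Nat.mod_eq_of_lt (by rw [pow_succ]; omega)]
      rw [h4.1] at h5
      omega
    have h8 : ¬ T % 2 ^ lev t i = i := by
      rw [h4.2, Nat.mod_eq_of_lt h3]
      omega
    unfold Wg
    rw [if_neg h7, if_neg h7, if_neg h8]
    norm_num
  · have h4 : T % 2 ^ lev t i = sc T % 2 ^ lev t i := by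
      conv_lhs => rw [h2]
      obtain ⟨r, hr⟩ := Nat.exists_eq_add_of_le h
      have h5 : 2 ^ Nat.log 2 T = 2 ^ lev t i * 2 ^ r := by rw [← pow_add, ← hr]
      conv_lhs => rw [h5]
      rw [Nat.mul_add_mod]
    have h5 : ((1 : ℝ) / 2) ^ (Nat.log 2 T + 1 - lev t i) =
        ((1 : ℝ) / 2) ^ (Nat.log 2 T - lev t i) / 2 := by
      rw [show Nat.log 2 T + 1 - lev t i = Nat.log 2 T - lev t i + 1 by omega, pow_succ]
      ring
    unfold Wg
    rw [e1, e2, e3, h4, h5]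
    split_ifs <;> norm_num

/-- the extended coefficients -/
noncomputable def Ext (t : ℕ) (a : ℕ → ℝ) (T : ℕ) : ℕ → ℝ :=
  fun m => ∑ i ∈ range t, a i * Wg t i T m

theorem Ext_zero {t : ℕ} (ht : 1 ≤ t) (a : ℕ → ℝ) {m : ℕ} (hm : m < t) : Ext t a t m = a m := by
  unfold Ext
  rw [Finset.sum_eq_single m]
  · rw [Wg_zero ht hm hm, if_pos rfl, mul_one]
  · intro i hi hne
    rw [Wg_zero ht (Finset.mem_range.1 hi) hm, if_neg (Ne.symm hne), mul_zero]
  · intro h
    exact absurd (Finset.mem_range.2 hm) h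

theorem Ext_same {t : ℕ} (a : ℕ → ℝ) {T m : ℕ} (hT : 1 ≤ T) (hm : m < T) (hne : m ≠ sc T) :
    Ext t a (T + 1) m = Ext t a T m := by
  unfold Ext
  exact Finset.sum_congr rfl fun i _ => by rw [Wg_same hT hm hne]

theorem Ext_new {t : ℕ} (ht : 1 ≤ t) (a : ℕ → ℝ) {T : ℕ} (hT : t ≤ T) :
    Ext t a (T + 1) (sc T) = Ext t a T (sc T) / 2 ∧ Ext t a (T + 1) T = Ext t a T (sc T) / 2 := by
  unfold Ext
  rw [Finset.sum_div]
  constructor
  · exact Finset.sum_congr rfl fun i hi => by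
      rw [(Wg_new ht (Finset.mem_range.1 hi) hT).1]; ring
  · exact Finset.sum_congr rfl fun i hi => by
      rw [(Wg_new ht (Finset.mem_range.1 hi) hT).2]; ring

theorem II_Ext {t : ℕ} (ht : 1 ≤ t) (a : ℕ → ℝ) {T : ℕ} (hT : t ≤ T) {m : ℕ} (hm : m < T + 1) :
    II T (Ext t a T) m = Ext t a (T + 1) m := by
  unfold II
  by_cases h1 : m = sc T
  · rw [if_pos (Or.inl h1), h1, (Ext_new ht a hT).1]
  · by_cases h2 : m = T
    · rw [if_pos (Or.inr h2), h2, (Ext_new ht a hT).2]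
    · rw [if_neg (by tauto), Ext_same a (by omega) (by omega) h1]

theorem RR_Ext {t : ℕ} (ht : 1 ≤ t) (a : ℕ → ℝ) {T : ℕ} (hT : t ≤ T) {m : ℕ} (hm : m < T) :
    RR T (Ext t a (T + 1)) m = Ext t a T m := by
  unfold RR
  by_cases h1 : m = sc T
  · rw [if_pos h1, h1, (Ext_new ht a hT).1, (Ext_new ht a hT).2]
    ring
  · rw [if_neg h1, add_zero, Ext_same a (by omega) hm h1]

theorem Ext_up {v : ℕ → ℕ → X} {δ M ρ : ℝ} {ε : ℕ → ℝ} (hε : ∀ t, 0 < ε t) (hS : Sys v δ ε M ρ)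
    {t : ℕ} (ht : 1 ≤ t) (a : ℕ → ℝ) (r : ℕ) :
    ‖L v (t + r) (Ext t a (t + r))‖ ≤ (∏ i ∈ Ico t (t + r), (1 + ε i)) * ‖L v t a‖ := by
  induction r with
  | zero =>
    rw [add_zero, Finset.Ico_self, Finset.prod_empty, one_mul,
      L_congr v (fun i hi => Ext_zero ht a hi)]
  | succ r ih =>
    rw [← add_assoc, Finset.prod_Ico_succ_top (by omega)]
    have h1 := hS.up (t + r) (by omega) (Ext t a (t + r))
    rw [L_congr v (fun i hi => II_Ext ht a (by omega) hi)] at h1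
    refine h1.trans ?_
    calc (1 + ε (t + r)) * ‖L v (t + r) (Ext t a (t + r))‖
        ≤ (1 + ε (t + r)) * ((∏ i ∈ Ico t (t + r), (1 + ε i)) * ‖L v t a‖) := by
          apply mul_le_mul_of_nonneg_left ih
          linarith [hε (t + r)]
      _ = _ := by ring

theorem Ext_lo {v : ℕ → ℕ → X} {δ M ρ : ℝ} {ε : ℕ → ℝ} (hε : ∀ t, 0 < ε t) (hS : Sys v δ ε M ρ)
    {t : ℕ} (ht : 1 ≤ t) (a : ℕ → ℝ) (r : ℕ) :
    ‖L v t a‖ ≤ (∏ i ∈ Ico t (t + r), (1 + ε i)) * ‖L v (t + r) (Ext t a (t + r))‖ := by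
  induction r with
  | zero =>
    rw [add_zero, Finset.Ico_self, Finset.prod_empty, one_mul,
      L_congr v (fun i hi => Ext_zero ht a hi)]
  | succ r ih =>
    rw [← add_assoc, Finset.prod_Ico_succ_top (by omega)]
    have h1 := hS.lo (t + r) (by omega) (Ext t a (t + r + 1))
    rw [L_congr v (fun i hi => RR_Ext ht a (by omega) hi)] at h1
    refine ih.trans ?_
    calc (∏ i ∈ Ico t (t + r), (1 + ε i)) * ‖L v (t + r) (Ext t a (t + r))‖
        ≤ (∏ i ∈ Ico t (t + r), (1 + ε i)) *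
          ((1 + ε (t + r)) * ‖L v (t + r + 1) (Ext t a (t + r + 1))‖) := by
          apply mul_le_mul_of_nonneg_left h1
          exact Finset.prod_nonneg fun i _ => by linarith [hε i]
      _ = _ := by ring

theorem lev_pow {n m : ℕ} (hm : m < 2 ^ n) : lev (2 ^ n) m = n := by
  unfold lev
  have h1 : Nat.log 2 (2 ^ n) = n := Nat.log_pow (by norm_num) _
  have h2 : sc (2 ^ n) = 0 := by
    unfold sc
    rw [h1, Nat.sub_self]
  rw [h1, h2, if_neg (by omega)]

/-- LIM -/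
theorem lim : LimStmt := by
  intro X _ _ _ v δ M ρ P ε hρ0 hρ hε hP hS
  have hex : ∀ k j : ℕ, ∃ y : X, j < 2 ^ k →
      Tendsto (fun n => L v (2 ^ n) (wt n k j)) atTop (𝓝 y) := by
    intro k j
    by_cases hj : j < 2 ^ k
    · obtain ⟨y, hy⟩ := lim_exists hρ hS hj
      exact ⟨y, fun _ => (tendsto_add_atTop_iff_nat k).1 hy⟩
    · exact ⟨0, fun h => absurd h hj⟩
  choose Y hY using hex
  refine ⟨Y, ?_, ?_⟩
  · intro k j hj
    constructor
    · have h1 := ((tendsto_add_atTop_iff_nat k).2 (hY k j hj)).norm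
      exact le_of_tendsto h1 (Eventually.of_forall fun n => L_wt_le hS.bdd hj n)
    · have hj1 : j < 2 ^ (k + 1) := by rw [pow_succ]; omega
      have hj2 : j + 2 ^ k < 2 ^ (k + 1) := by rw [pow_succ]; omega
      have h1 := ((hY (k + 1) j hj1).add (hY (k + 1) (j + 2 ^ k) hj2)).const_smul (2 : ℝ)⁻¹
      refine tendsto_nhds_unique ((hY k j hj).congr' ?_) h1
      filter_upwards [eventually_ge_atTop (k + 1)] with n hn
      rw [← L_half]
      exact L_congr v fun i _ => wt_split hn hj i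
  · intro t a ht
    have hP1 : 1 ≤ P := by
      have := hP t t
      rwa [Finset.Ico_self, Finset.prod_empty] at this
    have hlim : Tendsto (fun n => ‖L v (2 ^ n) (Ext t a (2 ^ n))‖) atTop
        (𝓝 ‖∑ i ∈ range t, a i • Y (lev t i) i‖) := by
      have h1 : Tendsto (fun n => ∑ i ∈ range t, a i • L v (2 ^ n) (wt n (lev t i) i)) atTop
          (𝓝 (∑ i ∈ range t, a i • Y (lev t i) i)) := by
        apply tendsto_finsetSum
        intro i hi
        exact (hY (lev t i) i (lt_pow_lev (Finset.mem_range.1 hi))).const_smul (a i)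
      refine (h1.congr fun n => ?_).norm
      have h2 : Ext t a (2 ^ n) = fun m => ∑ i ∈ range t, a i * Wg t i (2 ^ n) m := rfl
      rw [h2, L_comb]
      apply Finset.sum_congr rfl
      intro i _
      congr 1
      apply L_congr v
      intro m hm
      unfold wt Wg
      rw [lev_pow hm]
    have hev : ∀ᶠ n in atTop, t ≤ 2 ^ n := by
      filter_upwards [eventually_ge_atTop t] with n hn
      exact hn.trans (Nat.lt_two_pow_self).le
    constructor
    · refine ge_of_tendsto (hlim.const_mul P) ?_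
      filter_upwards [hev] with n hn
      obtain ⟨r, hr⟩ := Nat.exists_eq_add_of_le hn
      have h1 := Ext_lo hε hS ht a r
      rw [← hr] at h1
      exact h1.trans (mul_le_mul_of_nonneg_right (hP _ _) (norm_nonneg _))
    · refine le_of_tendsto hlim ?_
      filter_upwards [hev] with n hn
      obtain ⟨r, hr⟩ := Nat.exists_eq_add_of_le hn
      have h1 := Ext_up hε hS ht a r
      rw [← hr] at h1
      exact h1.trans (mul_le_mul_of_nonneg_right (hP _ _) (norm_nonneg _))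

end Pool.Agent.BC.H78
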